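import Pool.Agent.Helper13.HG2.Defs
import Pool.Agent.Helper99.HG.Sum

/-!
# Project HG2 (MP_e66f84_ag), the counting theorem for small primes outside `j₀`: covering
-/

set_option autoImplicit false

namespace Pool.Agent.Helper99.HG2

open Filter Topology Pool.Agent.Helper99.HG Pool.Agent.HG

variable {k : ℕ} {G : Type}

open Classical in
/-- a fixed option with the component `j₀` -/
noncomputable def oo (D : CD k G) (j₀ : Fin k) (o₀ : D.O) (q : D.P) : D.O :=
  if h : ∃ o ∈ D.V q, D.cmp o = j₀ then h.choose else o₀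

theorem oo_spec {D : CD k G} {j₀ : Fin k} {o₀ : D.O} {q : D.P} (h : ∃ o ∈ D.V q, D.cmp o = j₀) :
    oo D j₀ o₀ q ∈ D.V q ∧ D.cmp (oo D j₀ o₀ q) = j₀ := by
  unfold oo
  rw [dif_pos h]
  exact h.choose_spec

open Classical in
/-- the rough parts -/
noncomputable def EE [CommGroup G] (D : CD k G) (j₀ : Fin k) (o₀ : D.O) (Y X : ℕ) (d : Finset D.P) (τ : D.P → D.O) :
    Finset (Finset D.P) :=
  (pr D X).powerset.filter fun e => (∀ q ∈ e, q ∉ D.Ex ∧ q ∉ pf D d ∧ Y < D.nm q ∧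
    oo D j₀ o₀ q ∈ D.V q ∧ D.cmp (oo D j₀ o₀ q) = j₀) ∧
    ∀ p ∈ pf D d, ∀ i ∈ D.I p (τ p) j₀, ∏ q ∈ e, D.χ p i q (oo D j₀ o₀ q) = tt D d τ j₀ p i

open Classical in
/-- the special primes for the components other than `j₀` -/
noncomputable def UL [CommGroup G] (D : CD k G) (j₀ : Fin k) (z : ℕ → ℕ) (N X : ℕ) (K : Fin k → ℕ) (d : Finset D.P)
    (τ : D.P → D.O) (j : Fin k) : Finset (Finset D.P) :=
  if j = j₀ then {∅} else UU D z N X K d τ j

open Classical in
theorem coverL [CommGroup G] {D : CD k G} (hS : Sys D.P D.nm) {j₀ : Fin k} (hsp : Special D j₀) {N A X Y M : ℕ}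
    {c : Finset D.P} (hN : 0 < N) {z : ℕ → ℕ} (hcX : Nm D c ≤ X) {τ : D.P → D.O} (hτ : BadT D c τ)
    (hEx : ∀ p ∈ D.Ex, D.nm p ≤ Y) (hlow : ∀ p ∈ pf D c, D.cmp (τ p) ≠ j₀ → D.nm p ≤ Y)
    (htop : ∃ p ∈ pf D c, D.cmp (τ p) ≠ j₀ ∧ z (N - 1) < D.nm p)
    (hsm : ∀ κ, 1 ≤ κ → κ + 1 ≤ N - 1 → (∏ p ∈ (pf D c).filter (fun p => D.nm p ≤ z κ), D.nm p) ^ A ≤ z (κ + 1))
    (hM : Nm D (c.filter fun p => D.nm p ≤ Y) ≤ M) (o₀ : D.O) :
    ∃ K : Fin k → ℕ, (∀ j, j ≠ j₀ → K j ≤ N) ∧ K j₀ = N + 2 ∧ (∃ j₁, j₁ ≠ j₀ ∧ K j₁ = N) ∧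
      ∃ d ∈ DD D z N A Y, ∃ f ∈ Finset.pi (pf D d) (fun p => VV D z N K p),
        ∃ q ∈ Fintype.piFinset (fun j => UL D j₀ z N Y K d (ext o₀ _ f) j),
          Nm D d * ∏ j, Nm D (q j) ≤ M ∧
          ∃ e ∈ EE D j₀ o₀ Y X d (ext o₀ _ f), Nm D d * (∏ j, Nm D (q j)) * Nm D e ≤ X ∧
          (d ∪ Finset.univ.biUnion q) ∪ e = c := by
  have hτ' := hτ
  set P := pf D c with hP
  set K : Fin k → ℕ := fun j => if j = j₀ then N + 2 else
    (P.filter fun p => D.cmp (τ p) = j).sup fun p => sc z N (D.nm p) + 1 with hKdef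
  have hK0 : K j₀ = N + 2 := by simp [hKdef]
  have hKn : ∀ j, j ≠ j₀ → K j = (P.filter fun p => D.cmp (τ p) = j).sup fun p => sc z N (D.nm p) + 1 := by
    intro j hj
    simp [hKdef, hj]
  have hKle : ∀ p ∈ P, sc z N (D.nm p) < K (D.cmp (τ p)) := by
    intro p hp
    by_cases hj : D.cmp (τ p) = j₀
    · rw [hj, hK0]
      have := sc_lt z hN (D.nm p)
      omega
    · rw [hKn _ hj]
      exact Finset.le_sup (f := fun p => sc z N (D.nm p) + 1) (Finset.mem_filter.mpr ⟨hp, rfl⟩)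
  have hKN : ∀ j, j ≠ j₀ → K j ≤ N := by
    intro j hj
    rw [hKn j hj]
    exact Finset.sup_le fun p _ => sc_lt z hN (D.nm p)
  have hq : ∀ j, ∃ q : Finset D.P, if j = j₀ ∨ K j = 0 then q = ∅ else
      ∃ Q, q = {Q} ∧ Q ∈ P ∧ D.cmp (τ Q) = j ∧ sc z N (D.nm Q) + 1 = K j := by
    intro j
    by_cases h : j = j₀ ∨ K j = 0
    · exact ⟨∅, by rw [if_pos h]⟩
    · have h' := h
      push Not at h'
      have hne : (P.filter fun p => D.cmp (τ p) = j).Nonempty := by
        rw [Finset.nonempty_iff_ne_empty]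
        intro he
        refine h'.2 ?_
        rw [hKn j h'.1, he, Finset.sup_empty]
        rfl
      obtain ⟨q, hq1, hq2⟩ := Finset.exists_mem_eq_sup _ hne fun p => sc z N (D.nm p) + 1
      refine ⟨{q}, ?_⟩
      rw [if_neg h]
      refine ⟨q, rfl, (Finset.mem_filter.mp hq1).1, (Finset.mem_filter.mp hq1).2, ?_⟩
      rw [hKn j h'.1]
      exact hq2.symm
  choose q hq using hq
  have hq0 : ∀ j, (j = j₀ ∨ K j = 0) → q j = ∅ := fun j h => by
    have := hq j
    rwa [if_pos h] at this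
  have hq1 : ∀ j, ¬ (j = j₀ ∨ K j = 0) → ∃ Q, q j = {Q} ∧ Q ∈ P ∧ D.cmp (τ Q) = j ∧ sc z N (D.nm Q) + 1 = K j := fun j h => by
    have := hq j
    rwa [if_neg h] at this
  have hqm : ∀ j p, p ∈ q j → j ≠ j₀ ∧ K j ≠ 0 ∧ p ∈ P ∧ D.cmp (τ p) = j ∧ sc z N (D.nm p) + 1 = K j ∧ q j = {p} := by
    intro j p hp
    have h : ¬ (j = j₀ ∨ K j = 0) := by
      intro h
      rw [hq0 j h] at hp
      simp at hp
    obtain ⟨Q, h1, h2, h3, h4⟩ := hq1 j h
    rw [h1, Finset.mem_singleton] at hp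
    subst hp
    push Not at h
    exact ⟨h.1, h.2, h2, h3, h4, h1⟩
  set T := Finset.univ.biUnion q with hT
  set L := c.filter (fun p => D.nm p ≤ Y) with hL
  set e := c.filter (fun p => ¬ D.nm p ≤ Y) with he
  have hTP : T ⊆ P := by
    intro p hp
    obtain ⟨j, _, hj⟩ := Finset.mem_biUnion.mp hp
    exact (hqm j p hj).2.2.1
  have hTL : T ⊆ L := by
    intro p hp
    obtain ⟨j, _, hj⟩ := Finset.mem_biUnion.mp hp
    have h1 := hqm j p hj
    refine Finset.mem_filter.mpr ⟨(mem_pf.mp (hTP hp)).1, hlow p h1.2.2.1 ?_⟩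
    rw [h1.2.2.2.1]
    exact h1.1
  have hprodq : ∏ j, Nm D (q j) = Nm D T := by
    unfold Nm
    rw [hT, Finset.prod_biUnion]
    intro i _ j _ hij
    rw [Function.onFun, Finset.disjoint_left]
    intro p h1 h2
    exact hij ((hqm i p h1).2.2.2.1.symm.trans (hqm j p h2).2.2.2.1)
  set d := L \ T with hd
  have hdL : Nm D d * ∏ j, Nm D (q j) = Nm D L := by
    rw [hprodq, hd]
    unfold Nm
    exact Finset.prod_sdiff hTL
  have hLe : Nm D L * Nm D e = Nm D c := by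
    unfold Nm
    rw [hL, he]
    exact Finset.prod_filter_mul_prod_filter_not c (fun p => D.nm p ≤ Y) D.nm
  have hpfd : ∀ p, p ∈ pf D d ↔ p ∈ P ∧ D.nm p ≤ Y ∧ p ∉ T := by
    intro p
    rw [mem_pf, hd, Finset.mem_sdiff, hL, Finset.mem_filter, hP, mem_pf]
    tauto
  have hdP : ∀ p ∈ pf D d, p ∈ P := fun p hp => ((hpfd p).mp hp).1
  have heP : ∀ p ∈ e, p ∈ P ∧ Y < D.nm p ∧ D.cmp (τ p) = j₀ := by
    intro p hp
    obtain ⟨h1, h2⟩ := Finset.mem_filter.mp hp
    have h3 : p ∈ P := mem_pf.mpr ⟨h1, fun h => h2 (hEx p h)⟩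
    refine ⟨h3, by omega, ?_⟩
    by_contra h4
    exact h2 (hlow p h3 h4)
  set f : ∀ p ∈ pf D d, D.O := fun p _ => τ p with hf
  have hext : ∀ p ∈ pf D d, ext o₀ _ f p = τ p := by
    intro p hp
    unfold ext
    rw [dif_pos hp]
  -- the conditions for the components other than `j₀`
  have htt : ∀ p ∈ pf D d, ∀ j, ∀ Q, q j = {Q} → ∀ i ∈ D.I p (τ p) j, D.χ p i Q (τ Q) = tt D d (ext o₀ _ f) j p i := by
    intro p hp j Q hj i hi
    have hpP := hdP p hp
    have h1 := (hτ p hpP).2 j i hi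
    have hpT : p ∉ T := ((hpfd p).mp hp).2.2
    have hQ : Q ∈ q j := by
      rw [hj]
      exact Finset.mem_singleton_self Q
    have hQj := hqm j Q hQ
    have hqT : Q ∈ T := Finset.mem_biUnion.mpr ⟨j, Finset.mem_univ _, hQ⟩
    have hqp : Q ≠ p := fun h => hpT (h ▸ hqT)
    have e1 : P.filter (fun q' => q' ≠ p ∧ D.cmp (τ q') = j) =
        insert Q ((pf D d).filter (fun q' => q' ≠ p ∧ D.cmp (ext o₀ _ f q') = j)) := by
      ext r
      rw [Finset.mem_filter, Finset.mem_insert, Finset.mem_filter]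
      constructor
      · rintro ⟨h2, h3, h4⟩
        by_cases hr : r ∈ T
        · left
          obtain ⟨j', _, hj'⟩ := Finset.mem_biUnion.mp hr
          have h5 := hqm j' r hj'
          have h6 : j' = j := h5.2.2.2.1.symm.trans h4
          rw [h6, hj, Finset.mem_singleton] at hj'
          exact hj'
        · right
          have hr' : r ∈ pf D d := by
            rw [hpfd]
            exact ⟨h2, hlow r h2 (by rw [h4]; exact hQj.1), hr⟩
          refine ⟨hr', h3, ?_⟩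
          rw [hext r hr']
          exact h4
      · rintro (rfl | ⟨h2, h3, h4⟩)
        · exact ⟨hQj.2.2.1, hqp, hQj.2.2.2.1⟩
        · rw [hext r h2] at h4
          exact ⟨hdP r h2, h3, h4⟩
    have hnot : Q ∉ (pf D d).filter (fun q' => q' ≠ p ∧ D.cmp (ext o₀ _ f q') = j) := by
      intro h
      have h2 := (Finset.mem_filter.mp h).1
      exact ((hpfd Q).mp h2).2.2 hqT
    rw [e1, Finset.prod_insert hnot] at h1
    unfold tt
    rw [hext p hp, eq_mul_inv_iff_mul_eq, ← h1]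
    congr 1
    refine Finset.prod_congr rfl fun r hr => ?_
    rw [hext r (Finset.mem_filter.mp hr).1]
  -- the conditions for `j₀`
  have htt0 : ∀ p ∈ pf D d, ∀ i ∈ D.I p (τ p) j₀, ∏ r ∈ e, D.χ p i r (oo D j₀ o₀ r) = tt D d (ext o₀ _ f) j₀ p i := by
    intro p hp i hi
    have hpP := hdP p hp
    have h1 := (hτ p hpP).2 j₀ i hi
    have hpY : D.nm p ≤ Y := ((hpfd p).mp hp).2.1
    have e1 : P.filter (fun q' => q' ≠ p ∧ D.cmp (τ q') = j₀) =
        e ∪ (pf D d).filter (fun q' => q' ≠ p ∧ D.cmp (ext o₀ _ f q') = j₀) := by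
      ext r
      rw [Finset.mem_filter, Finset.mem_union, Finset.mem_filter (s := pf D d)]
      constructor
      · rintro ⟨h2, h3, h4⟩
        by_cases hr : D.nm r ≤ Y
        · right
          have hr' : r ∈ pf D d := by
            rw [hpfd]
            refine ⟨h2, hr, fun h => ?_⟩
            obtain ⟨j', _, hj'⟩ := Finset.mem_biUnion.mp h
            have h5 := hqm j' r hj'
            exact h5.1 (h5.2.2.2.1.symm.trans h4)
          refine ⟨hr', h3, ?_⟩
          rw [hext r hr']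
          exact h4
        · left
          exact Finset.mem_filter.mpr ⟨(mem_pf.mp h2).1, hr⟩
      · rintro (h2 | ⟨h2, h3, h4⟩)
        · obtain ⟨g1, g2, g3⟩ := heP r h2
          exact ⟨g1, fun h => by rw [h] at g2; omega, g3⟩
        · rw [hext r h2] at h4
          exact ⟨hdP r h2, h3, h4⟩
    have hdisj : Disjoint e ((pf D d).filter (fun q' => q' ≠ p ∧ D.cmp (ext o₀ _ f q') = j₀)) := by
      rw [Finset.disjoint_left]
      intro r h2 h3
      have g1 := (heP r h2).2.1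
      have g2 := ((hpfd r).mp (Finset.mem_filter.mp h3).1).2.1
      omega
    rw [e1, Finset.prod_union hdisj] at h1
    unfold tt
    rw [hext p hp, eq_mul_inv_iff_mul_eq, ← h1]
    congr 1
    · refine Finset.prod_congr rfl fun r hr => ?_
      obtain ⟨g1, g2, g3⟩ := heP r hr
      have g4 := (hτ r g1).1
      obtain ⟨g5, g6⟩ := oo_spec (o₀ := o₀) ⟨τ r, g4, g3⟩
      exact hsp.chi r _ g5 _ g4 g6 g3 p i
    · refine Finset.prod_congr rfl fun r hr => ?_
      rw [hext r (Finset.mem_filter.mp hr).1]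
  refine ⟨K, hKN, hK0, ?_, d, ?_, f, ?_, q, ?_, ?_, e, ?_, ?_, ?_⟩
  · obtain ⟨p, hp, hpj, hpz⟩ := htop
    refine ⟨D.cmp (τ p), hpj, le_antisymm (hKN _ hpj) ?_⟩
    have h1 : N - 1 ≤ sc z N (D.nm p) := Nat.le_findGreatest le_rfl hpz
    have h2 := hKle p hp
    omega
  · refine Finset.mem_filter.mpr ⟨?_, ?_⟩
    · rw [Finset.mem_powerset]
      intro p hp
      rw [mem_pr hS]
      exact (Finset.mem_filter.mp (Finset.mem_sdiff.mp hp).1).2
    · intro κ h1 h2
      refine (Nat.pow_le_pow_left ?_ _).trans (hsm κ h1 h2)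
      refine Nat.le_of_dvd (Finset.prod_pos fun p _ => ?_) ?_
      · have := hS.two p
        omega
      refine Finset.prod_dvd_prod_of_subset _ _ _ (Finset.filter_subset_filter _ ?_)
      exact fun p hp => hdP p hp
  · rw [Finset.mem_pi]
    intro p hp
    refine Finset.mem_filter.mpr ⟨(hτ p (hdP p hp)).1, Finset.mem_filter.mpr ⟨Finset.mem_univ _, ?_⟩⟩
    exact hKle p (hdP p hp)
  · rw [Fintype.mem_piFinset]
    intro j
    unfold UL
    by_cases hj : j = j₀
    · rw [if_pos hj, hq0 j (Or.inl hj)]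
      exact Finset.mem_singleton_self _
    rw [if_neg hj]
    unfold UU
    by_cases h : K j = 0
    · rw [if_pos h, hq0 j (Or.inr h)]
      exact Finset.mem_singleton_self _
    · rw [if_neg h]
      obtain ⟨Q, g0, g1, g2, g3⟩ := hq1 j (by push Not; exact ⟨hj, h⟩)
      have hqT : Q ∈ T := Finset.mem_biUnion.mpr ⟨j, Finset.mem_univ _, by rw [g0]; exact Finset.mem_singleton_self Q⟩
      rw [g0]
      refine Finset.mem_image.mpr ⟨Q, Finset.mem_filter.mpr ⟨?_, (mem_pf.mp g1).2, ?_, g3, τ Q, (hτ _ g1).1, g2, ?_⟩, rfl⟩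
      · rw [mem_pr hS]
        exact (Finset.mem_filter.mp (hTL hqT)).2
      · intro h2
        have h3 := (Finset.mem_filter.mp h2).1
        exact ((hpfd Q).mp h3).2.2 hqT
      · intro p hp i hi
        have hp1 := (Finset.mem_filter.mp hp).1
        rw [hext p hp1] at hi
        exact htt p hp1 j Q g0 i hi
  · rw [hdL]
    exact hM
  · refine Finset.mem_filter.mpr ⟨?_, ?_, ?_⟩
    · rw [Finset.mem_powerset]
      intro p hp
      rw [mem_pr hS]
      exact (nm_le_Nm hS (Finset.mem_filter.mp hp).1).trans hcX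
    · intro r hr
      obtain ⟨g1, g2, g3⟩ := heP r hr
      obtain ⟨g5, g6⟩ := oo_spec (o₀ := o₀) ⟨τ r, (hτ r g1).1, g3⟩
      refine ⟨(mem_pf.mp g1).2, fun h => ?_, g2, g5, g6⟩
      have := ((hpfd r).mp h).2.1
      omega
    · intro p hp i hi
      rw [hext p hp] at hi
      exact htt0 p hp i hi
  · rw [hdL, hLe]
    exact hcX
  · rw [hd, Finset.sdiff_union_of_subset hTL, hL, he]
    exact Finset.filter_union_filter_not_eq _ c

end Pool.Agent.Helper99.HG2
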