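import Pool.Agent.Helper99.HG2.Cov

/-!
# Project HG2 (MP_e66f84_ag), the counting theorem for small primes outside `j₀`: one level
-/

set_option autoImplicit false

namespace Pool.Agent.Helper99.HG2

open Filter Topology Pool.Agent.Helper99.HG Pool.Agent.HG

variable {k : ℕ} {G : Type}

/-- the inequality of `BTR` with given constants -/
def BTRc [CommGroup G] (D : CD k G) (j₀ : Fin k) (C : ℝ) (A : ℕ) : Prop :=
  ∀ (m : Finset D.P), (∀ p ∈ m, p ∉ D.Ex) →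
    ∀ τ : D.P → D.O, (∀ p ∈ m, τ p ∈ D.V p) → ∀ t : D.P → D.ι → G, ∀ Y h : ℕ, 2 ≤ Y →
    Real.log Y ≤ Real.log h ^ (1 / 2 : ℝ) → Nm D m ^ A ≤ h → ∀ (o : D.P → D.O)
    (E : Finset (Finset D.P)), (∀ e ∈ E, Nm D e ≤ h ∧ (∀ q ∈ e, q ∉ D.Ex ∧ q ∉ m ∧ Y < D.nm q ∧
      o q ∈ D.V q ∧ D.cmp (o q) = j₀) ∧
      ∀ p ∈ m, ∀ i ∈ D.I p (τ p) j₀, ∏ q ∈ e, D.χ p i q (o q) = t p i) →
    (E.card : ℝ) ≤ C * (∏ p ∈ m, (1 / 2 : ℝ) ^ (D.I p (τ p) j₀).card) * (h / Real.log Y)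

section one

variable [CommGroup G] {D : CD k G} {j₀ : Fin k} {o₀ : D.O} {ε C C' : ℝ} {A : ℕ} {z : ℕ → ℕ} {N X Y M : ℕ}
  {K : Fin k → ℕ} {d : Finset D.P} {τ : D.P → D.O}

omit [CommGroup G] in
theorem wj_top (hN : 0 < N) (hK0 : K j₀ = N + 2) :
    wj D z N K d τ j₀ = ∏ p ∈ pf D d, (1 / 2 : ℝ) ^ (D.I p (τ p) j₀).card := by
  unfold wj
  congr 1
  unfold mm
  rw [Finset.filter_eq_self]
  intro p _
  have := sc_lt z hN (D.nm p)
  omega

open Classical in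
/-- the special primes of the components other than `j₀` -/
theorem sumUL (hS : Sys D.P D.nm) (hC : 0 < C) (hε : 0 < ε) (hε1 : ε ≤ 1) (hBT : BTc D ε C A) (hd : d ∈ DD D z N A Y)
    (hτ : ∀ p ∈ pf D d, τ p ∈ D.V p) (hK : ∀ j, j ≠ j₀ → K j ≤ N) (hY : 3 ≤ Y) (j : Fin k) (hj : j ≠ j₀) :
    ∑ x ∈ UL D j₀ z N Y K d τ j, (1 : ℝ) / Nm D x ≤ ((1 + 16 / ε * C) * Real.log Y ^ ε) * wj D z N K d τ j := by
  set E : ℝ := (1 + 16 / ε * C) * Real.log Y ^ ε with hE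
  have hlX : 1 ≤ Real.log Y := log_ge_one hY
  have hlε : 1 ≤ Real.log Y ^ ε := Real.one_le_rpow hlX hε.le
  have hC' : 0 < 16 / ε * C := by positivity
  have hE1 : 1 ≤ E := by
    rw [hE]
    nlinarith
  have hw := fun j => wj_pos D z N K d τ j
  have hNm : ∀ Q : D.P, Nm D {Q} = D.nm Q := fun Q => by simp [Nm]
  unfold UL
  rw [if_neg hj]
  by_cases h0 : K j = 0
  · unfold UU
    rw [if_pos h0, Finset.sum_singleton]
    have e1 : wj D z N K d τ j = 1 := by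
      unfold wj
      rw [mm_empty (by omega)]
      rfl
    have e2 : Nm D ∅ = 1 := rfl
    rw [e1, e2]
    simpa using hE1
  · unfold UU
    rw [if_neg h0, Finset.sum_image (fun a _ b _ h => Finset.singleton_injective h)]
    simp only [hNm]
    have h1 := recip (UQ D z N Y K d τ j) D.nm (a := C * wj D z N K d τ j) (ε := ε) (by have := hw j; positivity) hε hε1 hY (by
      intro Q hQ
      unfold UQ at hQ
      exact ⟨hS.two Q, (mem_pr hS).mp (Finset.mem_filter.mp hQ).1⟩) (fun h _ => cardUQ hS hC hBT hd hτ (hK j hj) h)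
    refine h1.trans ?_
    rw [hE]
    have h2 : 0 ≤ Real.log Y ^ ε * wj D z N K d τ j := by have := hw j; positivity
    calc 16 / ε * (C * wj D z N K d τ j) * Real.log Y ^ ε = 16 / ε * C * (Real.log Y ^ ε * wj D z N K d τ j) := by ring
      _ ≤ (1 + 16 / ε * C) * (Real.log Y ^ ε * wj D z N K d τ j) := mul_le_mul_of_nonneg_right (by linarith) h2
      _ = _ := by ring

open Classical in
/-- the rough parts -/
theorem cardEE (hS : Sys D.P D.nm) (hBTR : BTRc D j₀ C' A) (hτ : ∀ p ∈ pf D d, τ p ∈ D.V p)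
    (hN : 0 < N) (hK0 : K j₀ = N + 2) (hY : 2 ≤ Y) (hC' : 0 < C') (hYX : Real.log Y ≤ Real.log (X / M : ℕ) ^ (1 / 2 : ℝ))
    (hMX : M ^ (A + 1) ≤ X) {w : ℕ} (hw0 : 0 < w) (hw : Nm D d * w ≤ M) :
    (((EE D j₀ o₀ Y X d τ).filter (fun e => Nm D d * w * Nm D e ≤ X)).card : ℝ) ≤
      C' * wj D z N K d τ j₀ * (X / (Nm D d * w) / Real.log Y) := by
  have hd0 : 0 < Nm D d := Nm_pos hS d
  have hdw : 0 < Nm D d * w := Nat.mul_pos hd0 hw0
  have hM0 : 0 < M := lt_of_lt_of_le hdw hw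
  have h1 := hBTR (pf D d) (fun p hp => (mem_pf.mp hp).2) τ hτ (fun p i => tt D d τ j₀ p i) Y (X / (Nm D d * w)) hY (by
    refine hYX.trans (Real.rpow_le_rpow (Real.log_natCast_nonneg _) ?_ (by norm_num))
    have g1 : X / M ≤ X / (Nm D d * w) := Nat.div_le_div_left hw hdw
    have g2 : 0 < X / M := by
      refine Nat.div_pos ?_ hM0
      calc M = M ^ 1 := (pow_one M).symm
        _ ≤ M ^ (A + 1) := Nat.pow_le_pow_right hM0 (by omega)
        _ ≤ X := hMX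
    exact Real.log_le_log (by exact_mod_cast g2) (by exact_mod_cast g1)) (by
    rw [Nat.le_div_iff_mul_le hdw]
    have g1 : Nm D (pf D d) ≤ M := by
      refine le_trans (Nat.le_of_dvd hd0 ?_) ((Nat.le_mul_of_pos_right _ hw0).trans hw)
      unfold Nm pf
      exact Finset.prod_dvd_prod_of_subset _ _ _ (Finset.filter_subset _ _)
    calc Nm D (pf D d) ^ A * (Nm D d * w) ≤ M ^ A * M := Nat.mul_le_mul (Nat.pow_le_pow_left g1 A) hw
      _ = M ^ (A + 1) := (pow_succ M A).symm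
      _ ≤ X := hMX) (oo D j₀ o₀) ((EE D j₀ o₀ Y X d τ).filter (fun e => Nm D d * w * Nm D e ≤ X)) (by
    intro e he
    obtain ⟨g1, g2⟩ := Finset.mem_filter.mp he
    unfold EE at g1
    obtain ⟨_, g3, g4⟩ := Finset.mem_filter.mp g1
    refine ⟨?_, g3, g4⟩
    rw [Nat.le_div_iff_mul_le hdw, mul_comm]
    exact g2)
  rw [← wj_top (z := z) hN hK0] at h1
  refine h1.trans ?_
  have hw' := wj_pos D z N K d τ j₀
  have hlY : 0 < Real.log Y := Real.log_pos (by exact_mod_cast (by omega : 1 < Y))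
  refine mul_le_mul_of_nonneg_left (div_le_div_of_nonneg_right ?_ hlY.le) (by positivity)
  have g : ((X / (Nm D d * w) : ℕ) : ℝ) ≤ X / ((Nm D d * w : ℕ) : ℝ) := Nat.cast_div_le
  push_cast at g
  exact g

open Classical in
/-- the number of pairs of a tuple of special primes and a rough part -/
theorem oneL (hS : Sys D.P D.nm) (hC : 0 < C) (hε : 0 < ε) (hε1 : ε ≤ 1) (hBT : BTc D ε C A) (hC' : 0 < C')
    (hBTR : BTRc D j₀ C' A) (hd : d ∈ DD D z N A Y)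
    (hτ : ∀ p ∈ pf D d, τ p ∈ D.V p) (hN : 0 < N) (hK : ∀ j, j ≠ j₀ → K j ≤ N) (hK0 : K j₀ = N + 2) (hY : 3 ≤ Y)
    (hYX : Real.log Y ≤ Real.log (X / M : ℕ) ^ (1 / 2 : ℝ)) (hMX : M ^ (A + 1) ≤ X) :
    ∑ q ∈ (Fintype.piFinset (fun j => UL D j₀ z N Y K d τ j)).filter (fun q => Nm D d * ∏ j, Nm D (q j) ≤ M),
      (((EE D j₀ o₀ Y X d τ).filter (fun e => Nm D d * (∏ j, Nm D (q j)) * Nm D e ≤ X)).card : ℝ) ≤
      C' * ((1 + 16 / ε * C) * Real.log Y ^ ε) ^ k / Real.log Y * X * (1 / Nm D d * ∏ j, wj D z N K d τ j) := by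
  set E : ℝ := (1 + 16 / ε * C) * Real.log Y ^ ε with hE
  have hlY : 1 ≤ Real.log Y := log_ge_one hY
  have hlY0 : 0 < Real.log Y := by linarith
  have hlε : 1 ≤ Real.log Y ^ ε := Real.one_le_rpow hlY hε.le
  have hCC : 0 < 16 / ε * C := by positivity
  have hE1 : 1 ≤ E := by
    rw [hE]
    nlinarith
  have hw := fun j => wj_pos D z N K d τ j
  have hd0 : (0 : ℝ) < Nm D d := by exact_mod_cast Nm_pos hS d
  have h1 : ∀ q ∈ (Fintype.piFinset (fun j => UL D j₀ z N Y K d τ j)).filter (fun q => Nm D d * ∏ j, Nm D (q j) ≤ M),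
      (((EE D j₀ o₀ Y X d τ).filter (fun e => Nm D d * (∏ j, Nm D (q j)) * Nm D e ≤ X)).card : ℝ) ≤
      C' * wj D z N K d τ j₀ * (X / Nm D d / Real.log Y) * ∏ j, (1 : ℝ) / Nm D (q j) := by
    intro q hq
    have g := cardEE (o₀ := o₀) (z := z) (w := ∏ j, Nm D (q j)) hS hBTR hτ hN hK0 (by omega) hC' hYX hMX
      (Finset.prod_pos fun j _ => Nm_pos hS (q j)) (Finset.mem_filter.mp hq).2
    refine g.trans (le_of_eq ?_)
    rw [Finset.prod_div_distrib, Finset.prod_const_one]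
    push_cast
    have hp : (0 : ℝ) < ∏ j, (Nm D (q j) : ℝ) := Finset.prod_pos fun j _ => by exact_mod_cast Nm_pos hS (q j)
    field_simp
  refine (Finset.sum_le_sum h1).trans ?_
  rw [← Finset.mul_sum]
  have h2 : ∑ q ∈ (Fintype.piFinset (fun j => UL D j₀ z N Y K d τ j)).filter (fun q => Nm D d * ∏ j, Nm D (q j) ≤ M),
      ∏ j, (1 : ℝ) / Nm D (q j) ≤ ∏ j, ∑ x ∈ UL D j₀ z N Y K d τ j, (1 : ℝ) / Nm D x := by
    rw [Finset.prod_univ_sum]
    exact Finset.sum_le_sum_of_subset_of_nonneg (Finset.filter_subset _ _) fun q _ _ =>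
      Finset.prod_nonneg fun j _ => by positivity
  have h3 : ∏ j, ∑ x ∈ UL D j₀ z N Y K d τ j, (1 : ℝ) / Nm D x ≤ ∏ j ∈ Finset.univ.erase j₀, (E * wj D z N K d τ j) := by
    rw [← Finset.mul_prod_erase Finset.univ _ (Finset.mem_univ j₀)]
    have e : ∑ x ∈ UL D j₀ z N Y K d τ j₀, (1 : ℝ) / Nm D x = 1 := by
      unfold UL
      rw [if_pos rfl, Finset.sum_singleton]
      simp [Nm]
    rw [e, one_mul]
    refine Finset.prod_le_prod (fun j _ => Finset.sum_nonneg fun x _ => by positivity) fun j hj => ?_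
    exact sumUL hS hC hε hε1 hBT hd hτ hK hY j (Finset.ne_of_mem_erase hj)
  have hX0 : (0 : ℝ) ≤ X := Nat.cast_nonneg X
  have h4 : 0 ≤ ∏ j ∈ Finset.univ.erase j₀, (E * wj D z N K d τ j) :=
    Finset.prod_nonneg fun j _ => by have := hw j; positivity
  have hw0 := hw j₀
  calc C' * wj D z N K d τ j₀ * (X / Nm D d / Real.log Y) * ∑ q ∈ (Fintype.piFinset (fun j => UL D j₀ z N Y K d τ j)).filter
        (fun q => Nm D d * ∏ j, Nm D (q j) ≤ M), ∏ j, (1 : ℝ) / Nm D (q j)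
      ≤ C' * wj D z N K d τ j₀ * (X / Nm D d / Real.log Y) * ∏ j ∈ Finset.univ.erase j₀, (E * wj D z N K d τ j) :=
        mul_le_mul_of_nonneg_left (h2.trans h3) (by positivity)
    _ = C' * (X / Nm D d / Real.log Y) * (wj D z N K d τ j₀ * ∏ j ∈ Finset.univ.erase j₀, (E * wj D z N K d τ j)) := by ring
    _ ≤ C' * (X / Nm D d / Real.log Y) * ((E * wj D z N K d τ j₀) * ∏ j ∈ Finset.univ.erase j₀, (E * wj D z N K d τ j)) := by
        refine mul_le_mul_of_nonneg_left (mul_le_mul_of_nonneg_right ?_ h4) (by positivity)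
        nlinarith
    _ = C' * (X / Nm D d / Real.log Y) * ∏ j, (E * wj D z N K d τ j) := by
        rw [Finset.mul_prod_erase Finset.univ (fun j => E * wj D z N K d τ j) (Finset.mem_univ j₀)]
    _ = _ := by
        rw [Finset.prod_mul_distrib, Finset.prod_const, Finset.card_univ, Fintype.card_fin]
        ring

end one

open Classical in
/-- the main count for one level -/
theorem main_countL [CommGroup G] {D : CD k G} (hS : Sys D.P D.nm) {j₀ : Fin k} (hsp : Special D j₀) {ε C C' : ℝ} {A : ℕ}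
    (hC : 0 < C) (hε : 0 < ε) (hε1 : ε ≤ 1) (hBT : BTc D ε C A) (hC' : 0 < C') (hBTR : BTRc D j₀ C' A)
    {z : ℕ → ℕ} {N X Y M : ℕ} (hN : 0 < N) (hY : 3 ≤ Y)
    (hYX : Real.log Y ≤ Real.log (X / M : ℕ) ^ (1 / 2 : ℝ)) (hMX : M ^ (A + 1) ≤ X)
    (hEx : ∀ p ∈ D.Ex, D.nm p ≤ Y) (o₀ : D.O) (S : Finset (Finset D.P)) (hSc : ∀ c ∈ S, Nm D c ≤ X ∧
      Nm D (c.filter fun p => D.nm p ≤ Y) ≤ M ∧
      (∃ τ, BadT D c τ ∧ (∀ p ∈ pf D c, D.cmp (τ p) ≠ j₀ → D.nm p ≤ Y) ∧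
        ∃ p ∈ pf D c, D.cmp (τ p) ≠ j₀ ∧ z (N - 1) < D.nm p) ∧
      (∀ κ, 1 ≤ κ → κ + 1 ≤ N - 1 → (∏ p ∈ (pf D c).filter (fun p => D.nm p ≤ z κ), D.nm p) ^ A ≤ z (κ + 1)))
    {B : ℝ} (hB : ∀ K : Fin k → ℕ, (∀ κ < N, j₀ ∈ Js K κ ∧ Js K κ ≠ {j₀}) → ∑ p ∈ pr D Y, ap D z N K p ≤ B) :
    (S.card : ℝ) ≤ (N + 3) ^ k * (C' * ((1 + 16 / ε * C) * Real.log Y ^ ε) ^ k / Real.log Y * X * Real.exp B) := by
  set Ks := (Fintype.piFinset fun _ : Fin k => Finset.range (N + 3)).filter fun K =>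
    (∀ j, j ≠ j₀ → K j ≤ N) ∧ K j₀ = N + 2 ∧ ∃ j₁, j₁ ≠ j₀ ∧ K j₁ = N with hKs
  have hsub : S ⊆ Ks.biUnion fun K => (DD D z N A Y).biUnion fun d => (Finset.pi (pf D d) (fun p => VV D z N K p)).biUnion fun f =>
      ((Fintype.piFinset (fun j => UL D j₀ z N Y K d (ext o₀ _ f) j)).filter (fun q => Nm D d * ∏ j, Nm D (q j) ≤ M)).biUnion fun q =>
        ((EE D j₀ o₀ Y X d (ext o₀ _ f)).filter (fun e => Nm D d * (∏ j, Nm D (q j)) * Nm D e ≤ X)).image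
        fun e => (d ∪ Finset.univ.biUnion q) ∪ e := by
    intro c hc
    obtain ⟨h1, h2, ⟨τ, h3, h4, h5⟩, h6⟩ := hSc c hc
    obtain ⟨K, hK1, hK2, hK3, d, hd, f, hf, q, hq, hqM, e, he, heX, hce⟩ := coverL hS hsp hN h1 h3 hEx h4 h5 h6 h2 o₀
    simp only [Finset.mem_biUnion, Finset.mem_image]
    refine ⟨K, Finset.mem_filter.mpr ⟨Fintype.mem_piFinset.mpr fun j => Finset.mem_range.mpr ?_, hK1, hK2, hK3⟩,
      d, hd, f, hf, q, Finset.mem_filter.mpr ⟨hq, hqM⟩, e, Finset.mem_filter.mpr ⟨he, heX⟩, hce⟩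
    by_cases hj : j = j₀
    · rw [hj, hK2]
      omega
    · have := hK1 j hj
      omega
  have hcard : (S.card : ℝ) ≤ ∑ K ∈ Ks, ∑ d ∈ DD D z N A Y, ∑ f ∈ Finset.pi (pf D d) (fun p => VV D z N K p),
      ∑ q ∈ (Fintype.piFinset (fun j => UL D j₀ z N Y K d (ext o₀ _ f) j)).filter (fun q => Nm D d * ∏ j, Nm D (q j) ≤ M),
      (((EE D j₀ o₀ Y X d (ext o₀ _ f)).filter (fun e => Nm D d * (∏ j, Nm D (q j)) * Nm D e ≤ X)).card : ℝ) := by
    have h1 : S.card ≤ ∑ K ∈ Ks, ∑ d ∈ DD D z N A Y, ∑ f ∈ Finset.pi (pf D d) (fun p => VV D z N K p),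
        ∑ q ∈ (Fintype.piFinset (fun j => UL D j₀ z N Y K d (ext o₀ _ f) j)).filter (fun q => Nm D d * ∏ j, Nm D (q j) ≤ M),
        ((EE D j₀ o₀ Y X d (ext o₀ _ f)).filter (fun e => Nm D d * (∏ j, Nm D (q j)) * Nm D e ≤ X)).card := by
      refine (Finset.card_le_card hsub).trans (Finset.card_biUnion_le.trans ?_)
      refine Finset.sum_le_sum fun K _ => Finset.card_biUnion_le.trans ?_
      refine Finset.sum_le_sum fun d _ => Finset.card_biUnion_le.trans ?_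
      refine Finset.sum_le_sum fun f _ => Finset.card_biUnion_le.trans ?_
      exact Finset.sum_le_sum fun q _ => Finset.card_image_le
    exact_mod_cast h1
  refine hcard.trans ?_
  set W : ℝ := C' * ((1 + 16 / ε * C) * Real.log Y ^ ε) ^ k / Real.log Y * X with hW
  have hlY : 0 ≤ Real.log Y := Real.log_natCast_nonneg Y
  have hW0 : 0 ≤ W := by
    rw [hW]
    positivity
  have hK1 : ∀ K ∈ Ks, ∑ d ∈ DD D z N A Y, ∑ f ∈ Finset.pi (pf D d) (fun p => VV D z N K p),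
      ∑ q ∈ (Fintype.piFinset (fun j => UL D j₀ z N Y K d (ext o₀ _ f) j)).filter (fun q => Nm D d * ∏ j, Nm D (q j) ≤ M),
      (((EE D j₀ o₀ Y X d (ext o₀ _ f)).filter (fun e => Nm D d * (∏ j, Nm D (q j)) * Nm D e ≤ X)).card : ℝ) ≤
      W * Real.exp B := by
    intro K hK
    obtain ⟨_, hK1, hK2, j₁, hj₁, hK3⟩ := Finset.mem_filter.mp hK
    have hJ : ∀ κ < N, j₀ ∈ Js K κ ∧ Js K κ ≠ {j₀} := by
      intro κ hκ
      refine ⟨Finset.mem_filter.mpr ⟨Finset.mem_univ _, by omega⟩, fun h => hj₁ ?_⟩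
      have h1 : j₁ ∈ Js K κ := Finset.mem_filter.mpr ⟨Finset.mem_univ _, by omega⟩
      rw [h] at h1
      exact Finset.mem_singleton.mp h1
    have h1 : ∀ d ∈ DD D z N A Y, ∑ f ∈ Finset.pi (pf D d) (fun p => VV D z N K p),
        ∑ q ∈ (Fintype.piFinset (fun j => UL D j₀ z N Y K d (ext o₀ _ f) j)).filter (fun q => Nm D d * ∏ j, Nm D (q j) ≤ M),
        (((EE D j₀ o₀ Y X d (ext o₀ _ f)).filter (fun e => Nm D d * (∏ j, Nm D (q j)) * Nm D e ≤ X)).card : ℝ) ≤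
        W * (1 / Nm D d * ∏ p ∈ pf D d, Wt D z N K p) := by
      intro d hd
      have h2 : ∀ f ∈ Finset.pi (pf D d) (fun p => VV D z N K p),
          ∑ q ∈ (Fintype.piFinset (fun j => UL D j₀ z N Y K d (ext o₀ _ f) j)).filter (fun q => Nm D d * ∏ j, Nm D (q j) ≤ M),
          (((EE D j₀ o₀ Y X d (ext o₀ _ f)).filter (fun e => Nm D d * (∏ j, Nm D (q j)) * Nm D e ≤ X)).card : ℝ) ≤
          W * (1 / Nm D d * ∏ j, wj D z N K d (ext o₀ _ f) j) := by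
        intro f hf
        refine oneL hS hC hε hε1 hBT hC' hBTR hd ?_ hN hK1 hK2 hY hYX hMX
        intro p hp
        unfold ext
        rw [dif_pos hp]
        exact (Finset.mem_filter.mp (Finset.mem_pi.mp hf p hp)).1
      refine (Finset.sum_le_sum h2).trans (le_of_eq ?_)
      rw [← Finset.mul_sum, ← Finset.mul_sum, sum_pi]
    refine (Finset.sum_le_sum h1).trans ?_
    rw [← Finset.mul_sum]
    refine mul_le_mul_of_nonneg_left ((euler D z N A Y K).trans ?_) hW0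
    exact Real.exp_le_exp.mpr (hB K hJ)
  refine (Finset.sum_le_sum hK1).trans ?_
  rw [Finset.sum_const, nsmul_eq_mul]
  have h5 : Ks.card ≤ (N + 3) ^ k := by
    refine (Finset.card_filter_le _ _).trans ?_
    rw [Fintype.card_piFinset]
    simp
  have h6 : (Ks.card : ℝ) ≤ (N + 3) ^ k := by exact_mod_cast h5
  exact mul_le_mul_of_nonneg_right h6 (by positivity)

end Pool.Agent.Helper99.HG2
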